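import Pool.Agent.N44.FA.Stm

/-!
# Project FA, leaf NFQG: the group `Gr` has no finite quotients besides those seen by the factors
(the relations of the elementary matrices are copied from `Pool/Agent/N169/NS/TT.lean`)
-/

set_option autoImplicit false

namespace Pool.Agent.N853.FA

open Pool.Agent.N44.NS Pool.Agent.N44.FA

section rel

variable {A : Type} [Ring A]

theorem el_add {i j : Fin 3} (h : i ≠ j) (a b : A) :
    el i j h (a + b) = el i j h a * el i j h b := by
  apply Units.ext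
  change (1 + Matrix.single i j (a + b) : Matrix (Fin 3) (Fin 3) A) =
    (1 + Matrix.single i j a) * (1 + Matrix.single i j b)
  rw [Matrix.single_add]
  simp only [mul_add, add_mul, one_mul, mul_one, single_sq h, add_zero]
  abel

theorem el_rel {i j k : Fin 3} (hij : i ≠ j) (hjk : j ≠ k) (hik : i ≠ k) (a b : A) :
    el i j hij a * el j k hjk b = el j k hjk b * (el i j hij a * el i k hik (a * b)) := by
  apply Units.ext
  change ((1 + Matrix.single i j a) * (1 + Matrix.single j k b) : Matrix (Fin 3) (Fin 3) A) =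
    (1 + Matrix.single j k b) * ((1 + Matrix.single i j a) * (1 + Matrix.single i k (a * b)))
  have h1 : (Matrix.single i j a * Matrix.single j k b : Matrix (Fin 3) (Fin 3) A) =
      Matrix.single i k (a * b) := Matrix.single_mul_single_same ..
  have h2 : (Matrix.single j k b * Matrix.single i j a : Matrix (Fin 3) (Fin 3) A) = 0 :=
    Matrix.single_mul_single_of_ne _ _ _ _ hik.symm _
  have h3 : (Matrix.single i j a * Matrix.single i k (a * b) : Matrix (Fin 3) (Fin 3) A) = 0 :=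
    Matrix.single_mul_single_of_ne _ _ _ _ hij.symm _
  have h4 : (Matrix.single j k b * Matrix.single i k (a * b) : Matrix (Fin 3) (Fin 3) A) = 0 :=
    Matrix.single_mul_single_of_ne _ _ _ _ hik.symm _
  simp only [mul_add, add_mul, one_mul, mul_one, h1, h2, h3, h4, add_zero]
  abel

theorem el_zero {i j : Fin 3} (h : i ≠ j) : el i j h (0 : A) = 1 := by
  have h1 := el_add h (0 : A) 0
  rw [add_zero] at h1
  exact left_eq_mul.mp h1

end rel

theorem EE_add {i j : Fin 3} (h : i ≠ j) (a b : ∀ k, Mt k) :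
    EE i j h (a + b) = EE i j h a * EE i j h b := funext fun k => el_add h (a k) (b k)

theorem EE_zero {i j : Fin 3} (h : i ≠ j) : EE i j h 0 = 1 := funext fun _ => el_zero h

theorem EE_neg {i j : Fin 3} (h : i ≠ j) (a : ∀ k, Mt k) : EE i j h (-a) = (EE i j h a)⁻¹ := by
  rw [eq_inv_iff_mul_eq_one, ← EE_add, neg_add_cancel, EE_zero]

theorem EE_rel {i j k : Fin 3} (hij : i ≠ j) (hjk : j ≠ k) (hik : i ≠ k) (a b : ∀ k, Mt k) :
    EE i k hik (a * b) = (EE i j hij a)⁻¹ * (EE j k hjk b)⁻¹ * (EE i j hij a * EE j k hjk b) := by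
  have h : EE i j hij a * EE j k hjk b = EE j k hjk b * (EE i j hij a * EE i k hik (a * b)) :=
    funext fun m => el_rel hij hjk hik (a m) (b m)
  rw [h]
  group

theorem EE_single {i j : Fin 3} (h : i ≠ j) (k : ℕ) (a : Mt k) :
    EE i j h (Pi.single k a) = Pi.mulSingle k (el i j h a) := by
  funext m
  by_cases hm : m = k
  · subst hm
    rw [Pi.mulSingle_eq_same]
    show el i j h ((Pi.single m a : ∀ k, Mt k) m) = _
    rw [Pi.single_eq_same]
  · rw [Pi.mulSingle_eq_of_ne hm]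
    show el i j h ((Pi.single k a : ∀ k, Mt k) m) = _
    rw [Pi.single_eq_of_ne hm, el_zero]

theorem EE_mem {i j : Fin 3} (h : i ≠ j) {a : ∀ k, Mt k} (ha : a ∈ R) : EE i j h a ∈ Gr :=
  Subgroup.subset_closure ⟨i, j, h, a, ha, rfl⟩

theorem third (i j : Fin 3) : ∃ l : Fin 3, i ≠ l ∧ l ≠ j := by
  revert i j
  decide

theorem t_nfqg (hs : ∀ (k : ℕ) (a : Mt k), (Pi.single k a : ∀ k, Mt k) ∈ R) (hR : S_NFQR) :
    S_NFQG := by
  intro N hN hidx hsing
  set N' : Subgroup (∀ k, St k) := N.map Gr.subtype with hN'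
  have hmem : ∀ x : ∀ k, St k, x ∈ N' ↔ ∃ h : x ∈ Gr, (⟨x, h⟩ : Gr) ∈ N := by
    intro x
    rw [hN', Subgroup.mem_map]
    constructor
    · rintro ⟨y, hy, rfl⟩
      exact ⟨y.2, hy⟩
    · rintro ⟨h, hx⟩
      exact ⟨_, hx, rfl⟩
  have hconj : ∀ g ∈ Gr, ∀ x ∈ N', g * x * g⁻¹ ∈ N' := by
    intro g hg x hx
    obtain ⟨h, hx⟩ := (hmem x).1 hx
    have h1 := hN.conj_mem _ hx (⟨g, hg⟩ : Gr)
    exact (hmem _).2 ⟨_, h1⟩
  let I : AddSubgroup (∀ k, Mt k) :=
    { carrier := {a | a ∈ R ∧ ∀ (i j : Fin 3) (h : i ≠ j), EE i j h a ∈ N'}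
      zero_mem' := ⟨R.zero_mem, fun i j h => by rw [EE_zero]; exact one_mem _⟩
      add_mem' := by
        rintro a b ⟨ha, ha'⟩ ⟨hb, hb'⟩
        exact ⟨R.add_mem ha hb, fun i j h => by
          rw [EE_add]
          exact mul_mem (ha' i j h) (hb' i j h)⟩
      neg_mem' := by
        rintro a ⟨ha, ha'⟩
        exact ⟨R.neg_mem ha, fun i j h => by
          rw [EE_neg]
          exact inv_mem (ha' i j h)⟩ }
  have hI : ∀ a, a ∈ I ↔ a ∈ R ∧ ∀ (i j : Fin 3) (h : i ≠ j), EE i j h a ∈ N' :=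
    fun a => Iff.rfl
  have hfin : Finite (Gr ⧸ N) := by
    have : N.FiniteIndex := ⟨hidx⟩
    infer_instance
  have hone : (1 : ∀ k, Mt k) ∈ I := by
    refine hR I ?_ ?_ ?_
    · intro a ha b hb
      obtain ⟨hb1, hb2⟩ := (hI b).1 hb
      refine ⟨(hI _).2 ⟨R.mul_mem ha hb1, fun i k hik => ?_⟩,
        (hI _).2 ⟨R.mul_mem hb1 ha, fun i k hik => ?_⟩⟩
      · obtain ⟨j, hij, hjk⟩ := third i k
        rw [EE_rel hij hjk hik]
        have h1 := hconj (EE i j hij a)⁻¹ (inv_mem (EE_mem hij ha)) (EE j k hjk b)⁻¹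
          (inv_mem (hb2 j k hjk))
        rw [inv_inv] at h1
        rw [← mul_assoc]
        exact mul_mem h1 (hb2 j k hjk)
      · obtain ⟨j, hij, hjk⟩ := third i k
        rw [EE_rel hij hjk hik]
        have h1 := hconj (EE j k hjk a)⁻¹ (inv_mem (EE_mem hjk ha)) (EE i j hij b) (hb2 i j hij)
        rw [inv_inv] at h1
        have h2 := mul_mem (inv_mem (hb2 i j hij)) h1
        convert h2 using 1
        group
    · intro k a
      refine (hI _).2 ⟨hs k a, fun i j h => ?_⟩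
      have h1 := EE_mem h (hs k a)
      rw [EE_single] at h1 ⊢
      exact (hmem _).2 ⟨h1, hsing k _ h1⟩
    · intro f hf
      let F : ℕ → ({p : Fin 3 × Fin 3 // p.1 ≠ p.2} → Gr ⧸ N) := fun n p =>
        QuotientGroup.mk (⟨EE p.1.1 p.1.2 p.2 (f n), EE_mem p.2 (hf n)⟩ : Gr)
      obtain ⟨x, y, hxy, hF⟩ := Finite.exists_ne_map_eq_of_infinite F
      have key : ∀ x y, F x = F y → f y - f x ∈ I := by
        intro x y hF
        refine (hI _).2 ⟨R.sub_mem (hf y) (hf x), fun i j h => ?_⟩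
        have h1 : (QuotientGroup.mk (⟨EE i j h (f x), EE_mem h (hf x)⟩ : Gr) : Gr ⧸ N) =
            QuotientGroup.mk (⟨EE i j h (f y), EE_mem h (hf y)⟩ : Gr) :=
          congrFun hF ⟨(i, j), h⟩
        rw [QuotientGroup.eq] at h1
        have h2 : (EE i j h (f x))⁻¹ * EE i j h (f y) ∈ N' := (hmem _).2 ⟨_, h1⟩
        rw [← EE_neg, ← EE_add, neg_add_eq_sub] at h2
        exact h2
      rcases lt_or_gt_of_ne hxy with h | h
      · exact ⟨x, y, h, key y x hF.symm⟩
      · exact ⟨y, x, h, key x y hF⟩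
  have hall : ∀ a ∈ R, ∀ (i j : Fin 3) (h : i ≠ j), EE i j h a ∈ N' := by
    intro a ha i j h
    obtain ⟨k, hik, hkj⟩ := third i j
    have h1 := ((hI 1).1 hone).2 k j hkj
    have h2 := EE_rel hik hkj h a 1
    rw [mul_one] at h2
    rw [h2]
    have h3 := hconj (EE i k hik a)⁻¹ (inv_mem (EE_mem hik ha)) (EE k j hkj 1)⁻¹ (inv_mem h1)
    rw [inv_inv] at h3
    rw [← mul_assoc]
    exact mul_mem h3 h1
  have hle : Gr ≤ N' := by
    unfold Gr
    rw [Subgroup.closure_le]
    rintro g ⟨i, j, h, a, ha, rfl⟩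
    exact hall a ha i j h
  rw [eq_top_iff]
  rintro ⟨x, hx⟩ -
  obtain ⟨h1, h2⟩ := (hmem x).1 (hle hx)
  exact h2

end Pool.Agent.N853.FA
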